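import Pool.Agent.H64.D1.Lit
import Pool.Agent.H64.D1.Imb
import Pool.Agent.H64.D1.Law
import Pool.Agent.H17.D1.RwU
import Pool.Agent.H36.T4.Fre

/-!
# The row of the digits of the alive places: `row_stmt : RowStmt`
-/

set_option autoImplicit false

namespace Pool.D136

open Finset Real MvPolynomial
open Pool.Agent.H49.Ent Pool.Agent.H32.Dense
open Pool.STK hiding pr2
open Pool.KA Pool.KSAT Pool.K2S Pool.PB Pool.S6C
open Pool.GEN Pool.CHT Pool.CHX Pool.LA91 Pool.RCD Pool.V0F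
open Pool.AVG57 (upw upw_slam)
open Pool.T4N (Frm FrmP fX fV ClE cR1 cR1_eq)
open Pool.T4G (NrW fl_wall)
open Pool.D164

variable {m J : ℕ}

/-- Two samples with one exact position of `c 0`. -/
theorem x_X {F : Fam m J} {k : Fin m} {ω ω' : F.Ω} (h : F.X J ω k = F.X J ω' k) :
    |F.x ω k - F.x ω' k| ≤ 1 / 2 ^ J := by
  have e1 : F.X J ω k = ⌊(2 : ℝ) ^ J * F.x ω k⌋ := rfl
  have e2 : F.X J ω' k = ⌊(2 : ℝ) ^ J * F.x ω' k⌋ := rfl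
  have h1 : ⌊(2 : ℝ) ^ J * F.x ω k⌋ = ⌊(2 : ℝ) ^ J * F.x ω' k⌋ := by rw [← e1, ← e2, h]
  have h2 := Int.floor_le ((2 : ℝ) ^ J * F.x ω k)
  have h3 := Int.lt_floor_add_one ((2 : ℝ) ^ J * F.x ω k)
  have h4 := Int.floor_le ((2 : ℝ) ^ J * F.x ω' k)
  have h5 := Int.lt_floor_add_one ((2 : ℝ) ^ J * F.x ω' k)
  rw [h1] at h2 h3
  have h6 : |(2 : ℝ) ^ J * F.x ω k - 2 ^ J * F.x ω' k| ≤ 1 := by
    rw [abs_le]
    constructor <;> linarith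
  rw [← mul_sub, abs_mul, abs_of_pos (by positivity)] at h6
  rw [le_div_iff₀ (by positivity)]
  linarith

/-- Off the walls the digits of the position of `c 0` are a function of the exact position. -/
theorem yL_fl {F : Fam m J} {c : ℕ → Fin m} {lP k : ℕ} (h6 : 6 ≤ lP) (hlP : lP ≤ J) {ω ω' : F.Ω}
    (hoff : ¬ NrW 2 (yL F c lP k ω)) (h : F.X J ω (c 0) = F.X J ω' (c 0)) :
    ⌊yL F c lP k ω⌋ = ⌊yL F c lP k ω'⌋ := by
  refine fl_wall hoff ?_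
  have h1 := x_X h
  have e1 : yL F c lP k ω - yL F c lP k ω' = 2 ^ (lP - 6) * (F.x ω (c 0) - F.x ω' (c 0)) := by
    unfold yL
    ring
  rw [e1, abs_mul, abs_of_pos (by positivity)]
  have h2 : (2 : ℝ) ^ (lP - 6) * |F.x ω (c 0) - F.x ω' (c 0)| ≤ 2 ^ (lP - 6) * (1 / 2 ^ J) :=
    mul_le_mul_of_nonneg_left h1 (by positivity)
  have h3 : (2 : ℝ) ^ (lP - 6) * 64 ≤ 2 ^ J := by
    have e2 : (64 : ℝ) = 2 ^ 6 := by norm_num
    rw [e2, ← pow_add]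
    exact pow_le_pow_right₀ (by norm_num) (by omega)
  have h4 : (2 : ℝ) ^ (lP - 6) * (1 / 2 ^ J) ≤ 1 / 64 := by
    rw [mul_one_div, div_le_div_iff₀ (by positivity) (by norm_num)]
    linarith
  have h5 : (1 : ℝ) / (2 * ((2 : ℕ) : ℝ)) = 1 / 4 := by norm_num
  rw [h5]
  linarith

theorem row_stmt : Pool.D164.RowStmt := by
  intro m D S c sn G s σ hr b o t q Λ φ' hs hsσ hhr hpos hX v₁ v₂ xa P₁ P₂ ε R κ κ' μ h ϖ W₁ W₂
    hε hv₁ htx hxa hxv₁ hv₁t hxv₂ hv₂ hI hP hP₁ hP₂ hμ hκ hκ' hh hϖ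
  have bU := Pool.D117.rwU hs hsσ hhr hpos hX v₁ xa P₁ P₂ ε R μ h W₁ hε hv₁ htx hxv₁ hv₁t hP hP₁
    hP₂ hμ hh
  have bI := img_row hpos hI hε hμ hκ hκ' hh W₂
  have hPos : Bas S (fun J F A => 0 < Pe F.p A) := ⟨1, one_pos, 0, fun J _ F A hA =>
    hpos 1 J F A hA⟩
  obtain ⟨J₁, hJ₁⟩ := Pool.CHT.big (4 * Real.log 2) hh
  refine Bas.mono J₁ (((Pool.LBK.Bas.ev bU hϖ).and (Pool.LBK.Bas.ev bI hϖ)).and hPos) ?_
  rintro J hJ F A ⟨⟨hU, hIm⟩, hA⟩ w P Fr hFr hw hN₁ hN₂ g r k lP ks n1 n2 n3 n4 n5 n6 n7 n8 n9 m1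
    m2 m3 m4 z N Y0 hD E hE hE0
  have hJ0 : (0 : ℝ) ≤ J := Nat.cast_nonneg J
  -- the law on the subevent
  obtain ⟨B, hB⟩ : ∃ B : F.Ω → Prop, B = fun ω => A ω ∧ E ω := ⟨_, rfl⟩
  have hBA : Sub B A := fun ω hω => by
    rw [hB] at hω
    exact hω.1
  have hPB : Pe F.p B = Pe F.p A * Pe (cB F A) E := by
    rw [hB]
    exact Pool.DIR16.Pe_cc hA
  have hcB : Pool.Agent.H49.Ent.cond (cB F A) E True = Pool.Agent.H49.Ent.cond F.p B True := by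
    rw [hB]
    exact Pool.DIR16.cond_cc hA
  have hB0 : 0 < Pe F.p B := by
    rw [hPB]
    exact mul_pos hA hE0
  have hBm : ϖ * Pe F.p A ≤ Pe F.p B := by
    rw [hPB, mul_comm]
    exact mul_le_mul_of_nonneg_left hE hA.le
  rw [hcB]
  have hq := isLaw_cond F.isLaw hB0
  have hqB : ∀ ω, 0 < Pool.Agent.H49.Ent.cond F.p B True ω → A ω := fun ω hω =>
    hBA ω (of_eq_true ((cond_pos_iff F.isLaw.nonneg B True ω).1 hω).2)
  -- the windows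
  have hΛ : 0 ≤ Λ * q := (abs_nonneg _).trans hP₁
  have hxJ : ⌊xa * J⌋₊ ≤ J := by
    have h1 : xa ≤ 1 := hxv₂.trans hv₂
    calc ⌊xa * J⌋₊ ≤ ⌊(J : ℝ)⌋₊ := Nat.floor_le_floor (mul_le_of_le_one_left hJ0 h1)
      _ = J := Nat.floor_natCast J
  have hvJ : ⌊v₂ * J⌋₊ ≤ J := by
    calc ⌊v₂ * J⌋₊ ≤ ⌊(J : ℝ)⌋₊ := Nat.floor_le_floor (mul_le_of_le_one_left hJ0 hv₂)
      _ = J := Nat.floor_natCast J
  have hxv : ⌊xa * J⌋₊ ≤ ⌊v₂ * J⌋₊ := Nat.floor_le_floor (mul_le_mul_of_nonneg_right hxv₂ hJ0)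
  -- the record
  obtain ⟨⟨y, hy⟩, -⟩ := Pool.T4N.cR_cl2 F A xa
  have hy1 : ∀ ω, A ω → y (ptr F J ω) = cR1 F A xa (slam F ⌊xa * J⌋₊ ω) := fun ω hω => by
    rw [cR1_eq hω, hy ω hω]
  have hy2 : ∀ ω, A ω → y (ptr F J ω) =
      (fun s => cR1 F A xa (upw ⌊xa * J⌋₊ ⌊v₂ * J⌋₊ s)) (slam F ⌊v₂ * J⌋₊ ω) := fun ω hω => by
    show y (ptr F J ω) = cR1 F A xa (upw ⌊xa * J⌋₊ ⌊v₂ * J⌋₊ (slam F ⌊v₂ * J⌋₊ ω))
    rw [upw_slam F hxv hvJ, hy1 ω hω]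
  have hfr : ∀ ω ω', A ω → A ω' → cR F A xa ω = cR F A xa ω' → ∀ i,
      Fr.G i (Fr.z' i (slam F (w i) ω)) = Fr.G i (Fr.z' i (slam F (w i) ω')) := by
    intro ω ω' hω hω' e i
    have hz : Cl2 (ptr F J) (vg xa J F) A (fun ω => Fr.z' i (slam F (w i) ω)) := by
      refine ⟨⟨Fr.z i, fun ν hν => ((hFr.lab i).cls ν hν).symm⟩,
        ⟨fun s => Fr.z' i (upw (w i) ⌊xa * J⌋₊ s), fun ν _ => ?_⟩⟩
      show Fr.z' i (slam F (w i) ν) = Fr.z' i (upw (w i) ⌊xa * J⌋₊ (slam F ⌊xa * J⌋₊ ν))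
      rw [upw_slam F (hw i) hxJ]
    have e1 : Fr.z' i (slam F (w i) ω) = Fr.z' i (slam F (w i) ω') :=
      Pool.NS95.cR_cl F A xa hz e
    rw [e1]
  -- the side digits
  have hY0 : ∀ ω ω', A ω → A ω' → F.X J ω (c 0) = F.X J ω' (c 0) →
      cR F A xa ω = cR F A xa ω' → F.W ω = F.W ω' → Y0 (ptr F J ω) = Y0 (ptr F J ω') := by
    intro ω ω' hω hω' e1 e2 e3
    rw [hD.y0 ω hω, hD.y0 ω' hω', yL_fl n4 n5 (hD.off ω hω) e1, e2, e3]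
  have hlow := hIm B hBA hBm (fX F c w Fr) (fV F c w Fr) (hN₂.sub hBA) g r k m1 m2 m3 m4
    (ClE F A xa → Prop) y (fun s => cR1 F A xa (upw ⌊xa * J⌋₊ ⌊v₂ * J⌋₊ s))
    (fun ω hω => hy2 ω (hBA ω hω)) (fun ω => z (ptr F J ω)) (fun ω => N (ptr F J ω) 0)
    (fun ω hω l => hD.zz ω (hBA ω hω) l) (fun ω hω => hD.nn ω (hBA ω hω) 0) _
    (fun ω => Y0 (ptr F J ω)) (fun ω ω' hω hω' e1 e2 e3 => by
      refine hY0 ω ω' (hBA ω hω) (hBA ω' hω') e1 ?_ e3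
      have a₁ := hy2 ω (hBA ω hω)
      have a₂ := hy2 ω' (hBA ω' hω')
      exact (hy ω (hBA ω hω)).trans (a₁.trans (e2.trans (a₂.symm.trans
        (hy ω' (hBA ω' hω')).symm))))
  have hup := hU B hBA hBm w P Fr (hFr.sub hBA) hw (hN₁.sub hBA) g r (lP - 6) n1 n2
    (fun ω hω => n3 ω (hBA ω hω)) (by omega) (by
      have : ((lP - 6 : ℕ) : ℝ) = (lP : ℝ) - 6 := by
        rw [Nat.cast_sub n4]
        norm_num
      rw [this]
      linarith) n7 n8 n9 (ClE F A xa → Prop) y (cR1 F A xa) (fun ω hω => hy1 ω (hBA ω hω))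
    (fun ω ω' hω hω' e => by
      refine hfr ω ω' (hBA ω hω) (hBA ω' hω') ?_
      rw [← cR1_eq (hBA ω hω), ← cR1_eq (hBA ω' hω')]
      exact e) (fun ω => z (ptr F J ω)) (fun ω => N (ptr F J ω) 0) (fun ω => ⌊yL F c lP ks ω⌋)
    (fun ω hω l => hD.zz ω (hBA ω hω) l) (fun ω hω => hD.nn ω (hBA ω hω) 0) (fun ω hω => by
      have h1 := Int.floor_le (yL F c lP ks ω)
      have h2 := Int.lt_floor_add_one (yL F c lP ks ω)
      have h3 : yL F c lP ks ω = 2 ^ (lP - 6) * F.x ω (c 0) + (ks : ℝ) / 2 := by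
        unfold yL
        norm_num
      have h4 : (ks : ℝ) ≤ 1 := by
        have := hD.k2
        exact_mod_cast (by omega : ks ≤ 1)
      have h5 : (0 : ℝ) ≤ ks := Nat.cast_nonneg ks
      rw [h3] at h1 h2 ⊢
      rw [abs_le]
      constructor <;> linarith)
  have hup' : CH (Pool.Agent.H49.Ent.cond F.p B True) (fun ω => N (ptr F J ω) 0)
      (fun ω => (N (ptr F J ω) 0 / 2 ^ r, (z (ptr F J ω), Y0 (ptr F J ω)))) ≤
      (1 - hr) * r * Real.log 2 + (φ' + 2 * μ + ε + h) * J := by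
    refine le_trans (CH_mono_cond hq.nonneg fun ω ω' hω hω' e => ?_) hup
    simp only [Prod.mk.injEq] at e ⊢
    obtain ⟨e1, e2, e3⟩ := e
    have a := hqB ω hω
    have a' := hqB ω' hω'
    rw [hD.y0 ω a, hD.y0 ω' a'] at e3
    simp only [Prod.mk.injEq] at e3
    rw [cR1_eq a, cR1_eq a']
    exact ⟨e1, e2, e3⟩
  have hrow := row_law (z := fun ω => z (ptr F J ω)) (W := fun ω => N (ptr F J ω) 0) (q := k)
    (r := r) (Y := fun ω => Y0 (ptr F J ω)) hq hlow hup'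
  refine le_trans (le_trans (CH_mono_cond hq.nonneg fun ω ω' hω hω' e => ?_) hrow) ?_
  · simp only [Prod.mk.injEq] at e ⊢
    exact ⟨e.1, e.2.1, by rw [e.2.2]⟩
  · have hbig := hJ₁ J hJ
    push_cast
    linarith

end Pool.D136
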